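import Mathlib
import Pool.Agent.KS6_82.Kah.PSpace

/-!
# Kähler metrics and partially hyperbolic biholomorphisms in arbitrary dimension

The definitions are those of `Pool.Graph.R_seed8.Results.MP_4c19c5_an.BettiCenter`, with the model
space `ℂ³` replaced by a normed space `E`.
-/

set_option autoImplicit false

open Filter Metric Set Topology
open scoped Manifold ContDiff

namespace Pool.Agent.KS6_82.PH

open Pool.Agent.KS6_82.Kah

section Defs

variable {E : Type} [NormedAddCommGroup E] [NormedSpace ℂ E]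

/-- The Levi form of `φ` at `z` in the direction `v`: `D²φ(z)(v, v) + D²φ(z)(iv, iv)`, that is
`4 ∑ (∂²φ / ∂z_j ∂z̄_k) v_j v̄_k` in coordinates. -/
noncomputable def leviForm (φ : E → ℝ) (z v : E) : ℝ :=
  fderiv ℝ (fun w => fderiv ℝ φ w v) z v +
    fderiv ℝ (fun w => fderiv ℝ φ w (Complex.I • v)) z (Complex.I • v)

variable {M : Type} [TopologicalSpace M] [ChartedSpace E M]

/-- `g`, which gives the squared lengths of the tangent vectors, is a Kähler metric: it is positive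
and locally the Levi form of a smooth function `φ` (a Kähler potential). As everywhere in Mathlib the
tangent space at `x` is the model space `E`, through the preferred chart at `x`. -/
def IsKahlerMetric (g : M → E → ℝ) : Prop :=
  (∀ x v, v ≠ 0 → 0 < g x v) ∧ ∀ x₀ : M, ∃ U : Set M, IsOpen U ∧ x₀ ∈ U ∧
    ∃ φ : M → ℝ, ∀ x ∈ U, ContDiffAt ℝ ∞ (φ ∘ (chartAt E x).symm) (chartAt E x x) ∧
      ∀ v, g x v = leviForm (φ ∘ (chartAt E x).symm) (chartAt E x x) v

variable (E) in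
/-- The derivative of `f` at `x`. -/
noncomputable def D (f : M → M) (x : M) : E →ₗ[ℂ] E :=
  (mfderiv 𝓘(ℂ, E) 𝓘(ℂ, E) f x).toLinearMap

variable [IsManifold 𝓘(ℂ, E) 1 M]

/-- The vector field `V` as a section of the tangent bundle. -/
def vf (V : M → E) (x : M) : TangentBundle 𝓘(ℂ, E) M := ⟨x, V x⟩

/-- A field of complex subspaces of the tangent spaces is a continuous subbundle: near every point
it has a basis of continuous vector fields. -/
def IsContinuousSubbundle (F : M → Submodule ℂ E) : Prop :=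
  ∀ x₀ : M, ∃ U : Set M, IsOpen U ∧ x₀ ∈ U ∧ ∃ (k : ℕ) (V : Fin k → M → E),
    (∀ i, ContinuousOn (vf (V i)) U) ∧
      ∀ x ∈ U, LinearIndependent ℂ (fun i => V i x) ∧ F x = Submodule.span ℂ (range fun i => V i x)

/-- A field of complex subspaces of the tangent spaces is a holomorphic subbundle: near every point
it is spanned by holomorphic vector fields. -/
def IsHolomorphicSubbundle (F : M → Submodule ℂ E) : Prop :=
  ∀ x₀ : M, ∃ U : Set M, IsOpen U ∧ x₀ ∈ U ∧ ∃ (k : ℕ) (V : Fin k → M → E),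
    (∀ i, MDifferentiableOn 𝓘(ℂ, E) 𝓘(ℂ, E).tangent (vf (V i)) U) ∧
      ∀ x ∈ U, F x = Submodule.span ℂ (range fun i => V i x)

/-- `TM = Es ⊕ Ec ⊕ Eu` is a partially hyperbolic splitting of `f` with respect to the metric with
squared lengths `g`: the three subbundles are nonzero, continuous and invariant, and for some `N ≥ 1`
and all unit vectors `vs ∈ Es`, `vc ∈ Ec`, `vu ∈ Eu` at the same point,
`‖Df^N vs‖ < min (1, ‖Df^N vc‖)` and `‖Df^N vu‖ > max (1, ‖Df^N vc‖)` (here with squares). -/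
structure IsPartiallyHyperbolic (g : M → E → ℝ) (f : M → M) (Es Ec Eu : M → Submodule ℂ E) :
    Prop where
  nonzero : ∀ x, Es x ≠ ⊥ ∧ Ec x ≠ ⊥ ∧ Eu x ≠ ⊥
  splitting : ∀ x v, ∃! w : E × E × E,
    w.1 ∈ Es x ∧ w.2.1 ∈ Ec x ∧ w.2.2 ∈ Eu x ∧ w.1 + w.2.1 + w.2.2 = v
  continuous : IsContinuousSubbundle Es ∧ IsContinuousSubbundle Ec ∧ IsContinuousSubbundle Eu
  invariant : ∀ x, (Es x).map (D E f x) = Es (f x) ∧ (Ec x).map (D E f x) = Ec (f x) ∧
    (Eu x).map (D E f x) = Eu (f x)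
  dominated : ∃ N : ℕ, 1 ≤ N ∧ ∀ x, ∀ vs ∈ Es x, ∀ vc ∈ Ec x, ∀ vu ∈ Eu x,
    g x vs = 1 → g x vc = 1 → g x vu = 1 →
      g (f^[N] x) (D E f^[N] x vs) < min 1 (g (f^[N] x) (D E f^[N] x vc)) ∧
      max 1 (g (f^[N] x) (D E f^[N] x vc)) < g (f^[N] x) (D E f^[N] x vu)

end Defs

/-! ### The Levi form -/

section Levi

variable {E F : Type} [NormedAddCommGroup E] [NormedSpace ℂ E] [NormedAddCommGroup F]
  [NormedSpace ℂ F]

theorem fderiv_fderiv_apply {φ : E → ℝ} {z : E} (hφ : ContDiffAt ℝ ∞ φ z) (u v : E) :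
    fderiv ℝ (fun w => fderiv ℝ φ w u) z v = fderiv ℝ (fderiv ℝ φ) z v u := by
  have h1 : DifferentiableAt ℝ (fderiv ℝ φ) z :=
    (hφ.fderiv_right (m := 1) (by norm_cast)).differentiableAt (by simp)
  have h2 := h1.hasFDerivAt.clm_apply (hasFDerivAt_const u z)
  rw [h2.fderiv]
  simp

theorem leviForm_eq {φ : E → ℝ} {z : E} (hφ : ContDiffAt ℝ ∞ φ z) (v : E) :
    leviForm φ z v = fderiv ℝ (fderiv ℝ φ) z v v +
      fderiv ℝ (fderiv ℝ φ) z (Complex.I • v) (Complex.I • v) := by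
  unfold leviForm
  rw [fderiv_fderiv_apply hφ, fderiv_fderiv_apply hφ]

theorem leviForm_congr {φ ψ : E → ℝ} {z : E} (h : φ =ᶠ[𝓝 z] ψ) (v : E) :
    leviForm φ z v = leviForm ψ z v := by
  unfold leviForm
  have h1 : ∀ u : E, (fun w => fderiv ℝ φ w u) =ᶠ[𝓝 z] fun w => fderiv ℝ ψ w u := by
    intro u
    filter_upwards [h.fderiv (𝕜 := ℝ)] with w hw
    rw [hw]
  rw [(h1 v).fderiv_eq, (h1 _).fderiv_eq]

theorem leviForm_zero (φ : E → ℝ) (z : E) : leviForm φ z 0 = 0 := by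
  unfold leviForm
  simp

theorem leviForm_smul {φ : E → ℝ} {z : E} (hφ : ContDiffAt ℝ ∞ φ z) (c : ℝ) (v : E) :
    leviForm φ z ((c : ℂ) • v) = c ^ 2 * leviForm φ z v := by
  rw [leviForm_eq hφ, leviForm_eq hφ, smul_comm]
  have h : ∀ w : E, (c : ℂ) • w = c • w := fun w => by
    rw [← Complex.coe_smul]
  rw [h, h]
  simp only [map_smul, smul_apply, smul_eq_mul]
  ring

theorem leviForm_add {φ ψ : E → ℝ} {z : E} (hφ : ContDiffAt ℝ ∞ φ z) (hψ : ContDiffAt ℝ ∞ ψ z)
    (v : E) : leviForm (fun w => φ w + ψ w) z v = leviForm φ z v + leviForm ψ z v := by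
  rw [leviForm_eq hφ, leviForm_eq hψ, leviForm_eq (hφ.add hψ)]
  have h1 : fderiv ℝ (fun w => φ w + ψ w) =ᶠ[𝓝 z] fun w => fderiv ℝ φ w + fderiv ℝ ψ w := by
    have c1 : ∀ᶠ w in 𝓝 z, ContDiffAt ℝ 1 φ w := (hφ.of_le (by norm_cast)).eventually (by simp)
    have c2 : ∀ᶠ w in 𝓝 z, ContDiffAt ℝ 1 ψ w := (hψ.of_le (by norm_cast)).eventually (by simp)
    filter_upwards [c1, c2] with w hw1 hw2
    exact fderiv_fun_add (hw1.differentiableAt (by simp)) (hw2.differentiableAt (by simp))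
  have d1 : DifferentiableAt ℝ (fderiv ℝ φ) z :=
    (hφ.fderiv_right (m := 1) (by norm_cast)).differentiableAt (by simp)
  have d2 : DifferentiableAt ℝ (fderiv ℝ ψ) z :=
    (hψ.fderiv_right (m := 1) (by norm_cast)).differentiableAt (by simp)
  rw [h1.fderiv_eq, fderiv_fun_add d1 d2]
  simp only [add_apply]
  ring

/-- **Change of variables** for the Levi form. -/
theorem leviForm_comp {φ : F → ℝ} {h : E → F} {z : E} (hh : ContDiffAt ℂ ω h z)
    (hφ : ContDiffAt ℝ ∞ φ (h z)) (v : E) :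
    leviForm (φ ∘ h) z v = leviForm φ (h z) (fderiv ℂ h z v) := by
  have hhR : ContDiffAt ℝ ω h z := hh.restrict_scalars ℝ
  have hcomp : ContDiffAt ℝ ∞ (φ ∘ h) z := hφ.comp z (hhR.of_le (by simp))
  rw [leviForm_eq hφ]
  unfold leviForm
  -- first derivative near `z`
  have e1 : ∀ᶠ w in 𝓝 z, ∀ u, fderiv ℝ (φ ∘ h) w u = fderiv ℝ φ (h w) (fderiv ℂ h w u) := by
    have c1 : ∀ᶠ w in 𝓝 z, ContDiffAt ℂ 1 h w := (hh.of_le (by simp)).eventually (by simp)
    have c2 : ∀ᶠ w in 𝓝 z, ContDiffAt ℝ 1 φ (h w) :=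
      hh.continuousAt.eventually ((hφ.of_le (by norm_cast)).eventually (by simp))
    filter_upwards [c1, c2] with w hw1 hw2 u
    have d1 : HasFDerivAt h ((fderiv ℂ h w).restrictScalars ℝ) w :=
      (hw1.differentiableAt (by simp)).hasFDerivAt.restrictScalars ℝ
    have d2 : HasFDerivAt φ (fderiv ℝ φ (h w)) (h w) :=
      (hw2.differentiableAt (by simp)).hasFDerivAt
    rw [(d2.comp w d1).fderiv]
    rfl
  -- second derivative
  have hD : DifferentiableAt ℂ (fderiv ℂ h) z :=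
    (hh.fderiv_right (m := 1) (by simp)).differentiableAt (by simp)
  have hφ1 : DifferentiableAt ℝ (fderiv ℝ φ) (h z) :=
    (hφ.fderiv_right (m := 1) (by norm_cast)).differentiableAt (by simp)
  have d1 : HasFDerivAt h ((fderiv ℂ h z).restrictScalars ℝ) z :=
    (hh.differentiableAt (by simp)).hasFDerivAt.restrictScalars ℝ
  have key : ∀ u u' : E, fderiv ℝ (fun w => fderiv ℝ (φ ∘ h) w u) z u' =
      fderiv ℝ (fderiv ℝ φ) (h z) (fderiv ℂ h z u') (fderiv ℂ h z u) +
        fderiv ℝ φ (h z) (fderiv ℂ (fderiv ℂ h) z u' u) := by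
    intro u u'
    have e2 : (fun w => fderiv ℝ (φ ∘ h) w u) =ᶠ[𝓝 z]
        fun w => fderiv ℝ φ (h w) (fderiv ℂ h w u) := by
      filter_upwards [e1] with w hw using hw u
    rw [e2.fderiv_eq]
    have a1 : HasFDerivAt (fun w => fderiv ℝ φ (h w))
        ((fderiv ℝ (fderiv ℝ φ) (h z)).comp ((fderiv ℂ h z).restrictScalars ℝ)) z :=
      hφ1.hasFDerivAt.comp z d1
    have a2 : HasFDerivAt (fun w => fderiv ℂ h w u)
        (((fderiv ℂ (fderiv ℂ h) z).flip u).restrictScalars ℝ) z := by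
      have := (hD.hasFDerivAt.clm_apply (hasFDerivAt_const u z)).restrictScalars ℝ
      have h0 : (fderiv ℂ h z).comp (0 : E →L[ℂ] E) + (fderiv ℂ (fderiv ℂ h) z).flip u =
          (fderiv ℂ (fderiv ℂ h) z).flip u := by
        rw [ContinuousLinearMap.comp_zero, zero_add]
      rw [h0] at this
      exact this
    rw [(a1.clm_apply a2).fderiv]
    simp [add_comm]
  rw [key, key]
  have l1 : fderiv ℂ h z (Complex.I • v) = Complex.I • fderiv ℂ h z v := map_smul _ _ _
  have l2 : fderiv ℂ (fderiv ℂ h) z (Complex.I • v) (Complex.I • v) =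
      - fderiv ℂ (fderiv ℂ h) z v v := by
    rw [map_smul (fderiv ℂ (fderiv ℂ h) z), smul_apply, map_smul, smul_smul,
      Complex.I_mul_I, neg_one_smul]
  rw [l1, l2, map_neg]
  ring

theorem leviForm_prod {φ : E → ℝ} {ψ : F → ℝ} {z : E × F} (hφ : ContDiffAt ℝ ∞ φ z.1)
    (hψ : ContDiffAt ℝ ∞ ψ z.2) (v : E × F) :
    leviForm (fun w : E × F => φ w.1 + ψ w.2) z v = leviForm φ z.1 v.1 + leviForm ψ z.2 v.2 := by
  have a1 : ContDiffAt ℝ ∞ (φ ∘ (Prod.fst : E × F → E)) z := hφ.comp z contDiffAt_fst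
  have a2 : ContDiffAt ℝ ∞ (ψ ∘ (Prod.snd : E × F → F)) z := hψ.comp z contDiffAt_snd
  have h := leviForm_add a1 a2 v
  have b1 := leviForm_comp (φ := φ) (h := (Prod.fst : E × F → E)) (z := z) contDiffAt_fst hφ v
  have b2 := leviForm_comp (φ := ψ) (h := (Prod.snd : E × F → F)) (z := z) contDiffAt_snd hψ v
  rw [fderiv_fst] at b1
  rw [fderiv_snd] at b2
  rw [b1, b2] at h
  exact h

/-- The Levi form is the Laplacian along complex lines. -/
theorem leviForm_laplace {φ : E → ℝ} {z : E} (hφ : ContDiffAt ℝ ∞ φ z) (v : E) :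
    leviForm φ z v = Pool.Agent.Results.MP_752b71_an.NoExtension.laplaceAtZero
      (fun ζ => φ (z + ζ • v)) := by
  have hφ1 : DifferentiableAt ℝ (fderiv ℝ φ) z :=
    (hφ.fderiv_right (m := 1) (by norm_cast)).differentiableAt (by simp)
  have key : ∀ u : E, iteratedDeriv 2 (fun s : ℝ => φ (z + s • u)) 0 =
      fderiv ℝ (fderiv ℝ φ) z u u := by
    intro u
    have hl : ∀ s : ℝ, HasDerivAt (fun s : ℝ => z + s • u) u s := by
      intro s
      simpa using ((hasDerivAt_id s).smul_const u).const_add z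
    have hc : ContinuousAt (fun s : ℝ => z + s • u) 0 := (hl 0).continuousAt
    have c2 : ∀ᶠ s : ℝ in 𝓝 0, ContDiffAt ℝ 1 φ (z + s • u) := by
      have h1 : ∀ᶠ w in 𝓝 z, ContDiffAt ℝ 1 φ w := (hφ.of_le (by norm_cast)).eventually (by simp)
      have h2 : Tendsto (fun s : ℝ => z + s • u) (𝓝 0) (𝓝 z) := by
        simpa using hc.tendsto
      exact h2.eventually h1
    rw [iteratedDeriv_succ, iteratedDeriv_one]
    have heq : deriv (fun s : ℝ => φ (z + s • u)) =ᶠ[𝓝 0] fun s => fderiv ℝ φ (z + s • u) u := by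
      filter_upwards [c2] with s hs
      exact ((hs.differentiableAt (by simp)).hasFDerivAt.comp_hasDerivAt s (hl s)).deriv
    rw [heq.deriv_eq]
    have h1 : HasFDerivAt (fun w => fderiv ℝ φ w u)
        ((ContinuousLinearMap.apply ℝ ℝ u).comp (fderiv ℝ (fderiv ℝ φ) z)) (z + (0 : ℝ) • u) := by
      rw [zero_smul, add_zero]
      exact (ContinuousLinearMap.apply ℝ ℝ u).hasFDerivAt.comp z hφ1.hasFDerivAt
    have h4 := HasFDerivAt.comp_hasDerivAt (f := fun s : ℝ => z + s • u) (0 : ℝ) h1 (hl 0)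
    have h3 : HasDerivAt (fun s : ℝ => fderiv ℝ φ (z + s • u) u)
        (fderiv ℝ (fderiv ℝ φ) z u u) 0 := h4
    exact h3.deriv
  rw [leviForm_eq hφ, ← key v, ← key (Complex.I • v)]
  unfold Pool.Agent.Results.MP_752b71_an.NoExtension.laplaceAtZero
  congr 2
  funext s
  show φ (z + s • Complex.I • v) = φ (z + ((s : ℂ) * Complex.I) • v)
  rw [mul_smul, Complex.coe_smul]

end Levi

end Pool.Agent.KS6_82.PH
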