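import Pool.Agent.KS6_82.PH.Prod

/-!
# Products of partially hyperbolic biholomorphisms with isometries: the splitting
-/

set_option autoImplicit false

open Filter Metric Set Topology
open scoped Manifold ContDiff

namespace Pool.Agent.KS6_82.PH

open Pool.Agent.KS6_82.Kah

variable {E F : Type} [NormedAddCommGroup E] [NormedSpace ℂ E] [NormedAddCommGroup F]
  [NormedSpace ℂ F]
variable {M K : Type} [TopologicalSpace M] [ChartedSpace E M]
  [TopologicalSpace K] [ChartedSpace F K]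

theorem omega_ne : (ω : WithTop ℕ∞) ≠ 0 := by simp

theorem contMDiff_iterate {f : M → M} (hf : ContMDiff 𝓘(ℂ, E) 𝓘(ℂ, E) ω f) (n : ℕ) :
    ContMDiff 𝓘(ℂ, E) 𝓘(ℂ, E) ω f^[n] := by
  induction n with
  | zero => exact contMDiff_id
  | succ n ih => rw [Function.iterate_succ]; exact ih.comp hf

theorem D_comp {f h : M → M} (x : M) (hf : MDifferentiableAt 𝓘(ℂ, E) 𝓘(ℂ, E) f (h x))
    (hh : MDifferentiableAt 𝓘(ℂ, E) 𝓘(ℂ, E) h x) (v : E) :
    D E (f ∘ h) x v = D E f (h x) (D E h x v) := by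
  have := mfderiv_comp x hf hh
  show (mfderiv 𝓘(ℂ, E) 𝓘(ℂ, E) (f ∘ h) x : E →L[ℂ] E) v = _
  rw [this]
  rfl

theorem D_surjective (h : Diffeomorph 𝓘(ℂ, E) 𝓘(ℂ, E) M M ω) (y : M) :
    Function.Surjective (D E h y) := by
  intro w
  refine ⟨(h.mfderivToContinuousLinearEquiv omega_ne y).symm w, ?_⟩
  have := (h.mfderivToContinuousLinearEquiv omega_ne y).apply_symm_apply w
  exact this

theorem iterate_iso {g : M → E → ℝ} (h : Diffeomorph 𝓘(ℂ, E) 𝓘(ℂ, E) M M ω)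
    (iso : ∀ y w, g (h y) (D E h y w) = g y w) (n : ℕ) :
    ∀ y w, g ((⇑h)^[n] y) (D E (⇑h)^[n] y w) = g y w := by
  induction n with
  | zero =>
    intro y w
    show g y ((mfderiv 𝓘(ℂ, E) 𝓘(ℂ, E) id y : E →L[ℂ] E) w) = g y w
    rw [mfderiv_id]
    rfl
  | succ n ih =>
    intro y w
    rw [Function.iterate_succ]
    have h1 := (contMDiff_iterate h.contMDiff n).mdifferentiable omega_ne (h y)
    have h2 := h.contMDiff.mdifferentiable omega_ne y
    rw [D_comp y h1 h2]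
    show g ((⇑h)^[n] (h y)) _ = _
    rw [ih, iso]

theorem map_prod {f : M → M} {h : K → K} (p : M × K)
    (hf : MDifferentiableAt 𝓘(ℂ, E) 𝓘(ℂ, E) f p.1)
    (hh : MDifferentiableAt 𝓘(ℂ, F) 𝓘(ℂ, F) h p.2) (A : Submodule ℂ E) (B : Submodule ℂ F) :
    (A.prod B).map (D (E × F) (Prod.map f h) p) = (A.map (D E f p.1)).prod (B.map (D F h p.2)) := by
  ext ⟨v, w⟩
  constructor
  · rintro ⟨⟨a, b⟩, ⟨ha, hb⟩, hab⟩
    rw [D_prod p hf hh] at hab
    exact ⟨⟨a, ha, (Prod.mk.inj hab).1⟩, ⟨b, hb, (Prod.mk.inj hab).2⟩⟩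
  · rintro ⟨⟨a, ha, rfl⟩, ⟨b, hb, rfl⟩⟩
    exact ⟨(a, b), ⟨ha, hb⟩, D_prod p hf hh (a, b)⟩

variable [IsManifold 𝓘(ℂ, E) ω M] [IsManifold 𝓘(ℂ, F) ω K]

/-- The product of a partially hyperbolic biholomorphism with a holomorphic isometry. -/
theorem IsPartiallyHyperbolic.prod [FiniteDimensional ℂ F] {g : M → E → ℝ} {g' : K → F → ℝ}
    (hg : IsKahlerMetric g) (hg' : IsKahlerMetric g')
    (f : Diffeomorph 𝓘(ℂ, E) 𝓘(ℂ, E) M M ω) (h : Diffeomorph 𝓘(ℂ, F) 𝓘(ℂ, F) K K ω)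
    (iso : ∀ y w, g' (h y) (D F h y w) = g' y w) {Es Ec Eu : M → Submodule ℂ E}
    (H : IsPartiallyHyperbolic g f Es Ec Eu) :
    IsPartiallyHyperbolic (prodMetric g g') (prodDiffeo f h) (fun p => (Es p.1).prod ⊥)
      (fun p => (Ec p.1).prod ⊤) (fun p => (Eu p.1).prod ⊥) where
  nonzero := by
    rintro ⟨x, y⟩
    have key : ∀ (A : Submodule ℂ E) (B : Submodule ℂ F), A ≠ ⊥ → A.prod B ≠ ⊥ := by
      intro A B hA hAB
      obtain ⟨v, hv, hv0⟩ := (Submodule.ne_bot_iff A).1 hA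
      have h1 : ((v, 0) : E × F) ∈ A.prod B := ⟨hv, B.zero_mem⟩
      rw [hAB, Submodule.mem_bot] at h1
      exact hv0 (Prod.mk.inj h1).1
    obtain ⟨h1, h2, h3⟩ := H.nonzero x
    exact ⟨key _ _ h1, key _ _ h2, key _ _ h3⟩
  splitting := by
    rintro ⟨x, y⟩ ⟨v, w⟩
    obtain ⟨⟨a, b, c⟩, ⟨ha, hb, hc, habc⟩, huniq⟩ := H.splitting x v
    refine ⟨((a, 0), (b, w), (c, 0)), ⟨⟨ha, rfl⟩, ⟨hb, trivial⟩, ⟨hc, rfl⟩,
      Prod.ext habc (by simp)⟩, ?_⟩
    rintro ⟨⟨a1, a2⟩, ⟨b1, b2⟩, ⟨c1, c2⟩⟩ ⟨⟨h1, h2⟩, ⟨h3, _⟩, ⟨h4, h5⟩, h6⟩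
    have h2' : a2 = 0 := h2
    have h5' : c2 = 0 := h5
    have h6' : a1 + b1 + c1 = v := (Prod.mk.inj h6).1
    have h7' : a2 + b2 + c2 = w := (Prod.mk.inj h6).2
    have h8 := huniq (a1, b1, c1) ⟨h1, h3, h4, h6'⟩
    obtain ⟨e1, e2, e3⟩ : a1 = a ∧ b1 = b ∧ c1 = c := by
      simpa only [Prod.mk.injEq] using h8
    subst e1 e2 e3 h2' h5'
    rw [zero_add, add_zero] at h7'
    rw [h7']
  continuous := ⟨subbundle_prod H.continuous.1 subbundle_bot,
    subbundle_prod H.continuous.2.1 subbundle_top, subbundle_prod H.continuous.2.2 subbundle_bot⟩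
  invariant := by
    rintro ⟨x, y⟩
    have d1 := f.contMDiff.mdifferentiable omega_ne x
    have d2 := h.contMDiff.mdifferentiable omega_ne y
    obtain ⟨i1, i2, i3⟩ := H.invariant x
    have top : (⊤ : Submodule ℂ F).map (D F h y) = ⊤ := by
      rw [Submodule.map_top]
      exact LinearMap.range_eq_top.2 (D_surjective h y)
    refine ⟨?_, ?_, ?_⟩
    · rw [prodDiffeo_coe]
      refine (map_prod (x, y) d1 d2 _ _).trans ?_
      show ((Es x).map (D E f x)).prod (Submodule.map (D F h y) ⊥) = _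
      rw [i1, Submodule.map_bot]
      rfl
    · rw [prodDiffeo_coe]
      refine (map_prod (x, y) d1 d2 _ _).trans ?_
      show ((Ec x).map (D E f x)).prod (Submodule.map (D F h y) ⊤) = _
      rw [i2, top]
      rfl
    · rw [prodDiffeo_coe]
      refine (map_prod (x, y) d1 d2 _ _).trans ?_
      show ((Eu x).map (D E f x)).prod (Submodule.map (D F h y) ⊥) = _
      rw [i3, Submodule.map_bot]
      rfl
  dominated := by
    obtain ⟨N, hN, hd⟩ := H.dominated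
    refine ⟨N, hN, ?_⟩
    rintro ⟨x, y⟩ ⟨vs, vs'⟩ ⟨hvs, hvs'⟩ ⟨vc, w⟩ ⟨hvc, _⟩ ⟨vu, vu'⟩ ⟨hvu, hvu'⟩ n1 n2 n3
    have hvs'' : vs' = 0 := hvs'
    have hvu'' : vu' = 0 := hvu'
    subst hvs'' hvu''
    have d1 := (contMDiff_iterate f.contMDiff N).mdifferentiable omega_ne x
    have d2 := (contMDiff_iterate h.contMDiff N).mdifferentiable omega_ne y
    have n1' : g x vs = 1 := by
      have : g x vs + g' y 0 = 1 := n1
      rwa [hg'.zero, add_zero] at this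
    have n3' : g x vu = 1 := by
      have : g x vu + g' y 0 = 1 := n3
      rwa [hg'.zero, add_zero] at this
    have n2' : g x vc + g' y w = 1 := n2
    have hit : (⇑(prodDiffeo f h))^[N] = Prod.map (⇑f)^[N] (⇑h)^[N] := by
      rw [prodDiffeo_coe, Prod.map_iterate]
    have key : ∀ (v : E) (w : F), prodMetric g g' ((⇑(prodDiffeo f h))^[N] (x, y))
        (D (E × F) (⇑(prodDiffeo f h))^[N] (x, y) (v, w)) =
          g ((⇑f)^[N] x) (D E (⇑f)^[N] x v) + g' y w := by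
      intro v w
      rw [hit, D_prod (x, y) d1 d2]
      show g ((⇑f)^[N] x) (D E (⇑f)^[N] x v) + g' ((⇑h)^[N] y) (D F (⇑h)^[N] y w) = _
      rw [iterate_iso h iso]
    rw [key, key, key, hg'.zero, add_zero, add_zero]
    -- a unit vector of the center direction
    have unit : ∀ v ∈ Ec x, v ≠ 0 → ∃ r : ℝ, r ^ 2 * g x v = 1 ∧ g x ((r : ℂ) • v) = 1 := by
      intro v hv hv0
      have hpos := hg.1 x v hv0
      refine ⟨(Real.sqrt (g x v))⁻¹, ?_, ?_⟩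
      · rw [inv_pow, Real.sq_sqrt hpos.le, inv_mul_cancel₀ hpos.ne']
      · rw [hg.smul, inv_pow, Real.sq_sqrt hpos.le, inv_mul_cancel₀ hpos.ne']
    obtain ⟨t, ht, ht1, ht2⟩ : ∃ t : ℝ, g ((⇑f)^[N] x) (D E (⇑f)^[N] x vc) = g x vc * t ∧
        g ((⇑f)^[N] x) (D E (⇑f)^[N] x vs) < min 1 t ∧
        max 1 t < g ((⇑f)^[N] x) (D E (⇑f)^[N] x vu) := by
      by_cases h0 : vc = 0
      · obtain ⟨v, hv, hv0⟩ := (Submodule.ne_bot_iff _).1 (H.nonzero x).2.1
        obtain ⟨r, _, hr⟩ := unit v hv hv0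
        have := hd x vs hvs _ ((Ec x).smul_mem (r : ℂ) hv) vu hvu n1' hr n3'
        refine ⟨_, ?_, this⟩
        rw [h0, map_zero, hg.zero, hg.zero, zero_mul]
      · obtain ⟨r, hr1, hr⟩ := unit vc hvc h0
        have := hd x vs hvs _ ((Ec x).smul_mem (r : ℂ) hvc) vu hvu n1' hr n3'
        refine ⟨_, ?_, this⟩
        rw [map_smul, hg.smul]
        linear_combination (- g ((⇑f)^[N] x) (D E (⇑f)^[N] x vc)) * hr1
    rw [ht]
    have hc0 : 0 ≤ g x vc := hg.nonneg x vc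
    have hw0 : 0 ≤ g' y w := hg'.nonneg y w
    have hw : g' y w = 1 - g x vc := by linarith
    rw [hw] at hw0 ⊢
    obtain ⟨a1, a2⟩ := lt_min_iff.1 ht1
    obtain ⟨b1, b2⟩ := max_lt_iff.1 ht2
    set s := g ((⇑f)^[N] x) (D E (⇑f)^[N] x vs)
    set u := g ((⇑f)^[N] x) (D E (⇑f)^[N] x vu)
    set c := g x vc
    rcases hc0.eq_or_lt with hc | hc
    · rw [← hc]
      simp only [zero_mul, sub_zero, zero_add]
      exact ⟨lt_min a1 a1, max_lt b1 b1⟩
    · constructor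
      · refine lt_min a1 ?_
        nlinarith [mul_lt_mul_of_pos_left a2 hc, mul_le_mul_of_nonneg_left a1.le hw0]
      · refine max_lt b1 ?_
        nlinarith [mul_lt_mul_of_pos_left b2 hc, mul_le_mul_of_nonneg_left b1.le hw0]

end Pool.Agent.KS6_82.PH
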