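import Pool.Agent.KS6_82.PH.Prod

/-!
# The Fubini–Study metric on the complex projective space is a Kähler metric
-/

set_option autoImplicit false

open Filter Metric Set Topology
open scoped Manifold ContDiff

namespace Pool.Agent.KS6_82.PH

open Pool.Agent.KS6_82.Kah
open Pool.Agent.Results.MP_752b71_an.NoExtension (laplaceAtZero laplace_log_pos laplace_log_normSq
  contDiff_normSq omega_ne_zero)

variable {k : ℕ}

theorem levi_prho_pos (c : Fin (k + 1)) (z : Fin k → ℂ) {v : Fin k → ℂ} (hv : v ≠ 0) :
    0 < leviForm (prho c) z v := by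
  rw [leviForm_laplace (contDiff_prho c).contDiffAt]
  obtain ⟨j, hj⟩ : ∃ j, v j ≠ 0 := by
    by_contra hcon
    push Not at hcon
    exact hv (funext hcon)
  have hl : ∀ ζ : ℂ, HasDerivAt (fun ζ : ℂ => z + ζ • v) v ζ := by
    intro ζ
    simpa using ((hasDerivAt_id ζ).smul_const v).const_add z
  have hF : ∀ i, DifferentiableOn ℂ (fun ζ : ℂ => vec c (z + ζ • v) i) (ball 0 1) := fun i ζ _ =>
    (((contDiff_vec (n := ω) c i).differentiable omega_ne_zero _).comp ζ
      (hl ζ).differentiableAt).differentiableWithinAt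
  refine laplace_log_pos (fun i ζ => vec c (z + ζ • v) i) one_pos hF c
    (fun ζ _ => vec_self c _) (c.succAbove j) ?_
  simp only [vec_succAbove]
  have h1 : HasDerivAt (fun ζ : ℂ => (z + ζ • v) j) (v j) 0 := (hasDerivAt_pi.1 (hl 0)) j
  rw [h1.deriv]
  exact hj

/-- the index of the preferred chart at `m` -/
noncomputable def cidx (m : PP k) : Fin (k + 1) := Classical.choose (exists_psrc m)

theorem cidx_mem (m : PP k) : m ∈ psrc (cidx m) := Classical.choose_spec (exists_psrc m)

theorem chartAt_eq (m : PP k) : chartAt (Fin k → ℂ) m = pch (cidx m) := rfl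

/-- The Fubini–Study metric. -/
noncomputable def fubiniStudy (m : PP k) (v : Fin k → ℂ) : ℝ :=
  leviForm (prho (cidx m)) (pfwd (cidx m) m) v

/-- the coordinate change -/
theorem pfwd_pbwd' (c d : Fin (k + 1)) (p : Fin k → ℂ) :
    (pfwd d (pbwd c p) = fun j => vec c p (d.succAbove j) / vec c p d) ∨ vec c p d = 0 := by
  by_cases h : vec c p d = 0
  · exact Or.inr h
  · refine Or.inl ?_
    funext j
    exact Pool.Agent.Results.MP_752b71_an.NoExtension.prj_ratio h _

theorem contDiffAt_trans (c d : Fin (k + 1)) {p : Fin k → ℂ} (h : vec c p d ≠ 0) :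
    ContDiffAt ℂ ω (fun p => pfwd d (pbwd c p)) p := by
  have h1 : ContDiffAt ℂ ω (fun p : Fin k → ℂ => fun j => vec c p (d.succAbove j) / vec c p d) p :=
    contDiffAt_pi.2 fun j => (contDiff_vec c _).contDiffAt.div (contDiff_vec c _).contDiffAt h
  refine h1.congr_of_eventuallyEq ?_
  have h2 : ∀ᶠ q in 𝓝 p, vec c q d ≠ 0 :=
    ((contDiff_vec (n := ω) c d).continuous.continuousAt).eventually_ne h
  filter_upwards [h2] with q hq
  exact (pfwd_pbwd' c d q).resolve_right hq

theorem isKahlerMetric_fubiniStudy : IsKahlerMetric (fubiniStudy (k := k)) := by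
  constructor
  · intro m v hv
    exact levi_prho_pos _ _ hv
  · intro m₀
    set d := cidx m₀ with hd
    refine ⟨psrc d, isOpen_psrc d, cidx_mem m₀, fun m => prho d (pfwd d m), ?_⟩
    intro m hm
    set c := cidx m with hc
    have hmc : m ∈ psrc c := cidx_mem m
    set z := pfwd c m with hz
    have e : (fun m => prho d (pfwd d m)) ∘ (chartAt (Fin k → ℂ) m).symm =
        prho d ∘ fun p => pfwd d (pbwd c p) := rfl
    have e' : chartAt (Fin k → ℂ) m m = z := rfl
    rw [e, e']
    have hne : vec c z d ≠ 0 := by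
      rw [← pbwd_mem_iff, hz, pbwd_pfwd c hmc]
      exact hm
    have t1 := contDiffAt_trans c d hne
    have t1R : ContDiffAt ℝ ∞ (fun p => pfwd d (pbwd c p)) z :=
      (t1.restrict_scalars ℝ).of_le (by simp)
    have t2 : ContDiffAt ℝ ∞ (prho d) (pfwd d (pbwd c z)) := (contDiff_prho d).contDiffAt
    have t3 : ContDiffAt ℝ ∞ (prho d ∘ fun p => pfwd d (pbwd c p)) z := t2.comp z t1R
    refine ⟨t3, fun v => ?_⟩
    -- the difference of the potentials
    have t4 : ContDiffAt ℝ ∞ (fun p : Fin k → ℂ => Real.log (Complex.normSq (vec c p d))) z := by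
      refine ContDiffAt.log ?_ (Complex.normSq_pos.2 hne).ne'
      exact (contDiff_normSq.comp ((contDiff_vec (n := ∞) c d).restrict_scalars ℝ)).contDiffAt
    have hev : ∀ᶠ q in 𝓝 z, vec c q d ≠ 0 :=
      ((contDiff_vec (n := ω) c d).continuous.continuousAt).eventually_ne hne
    have heq : prho c =ᶠ[𝓝 z] fun p => (prho d ∘ fun p => pfwd d (pbwd c p)) p +
        Real.log (Complex.normSq (vec c p d)) := by
      filter_upwards [hev] with p hp
      have h1 : ∀ i, vec c p i = vec c p d * vec d (pfwd d (pbwd c p)) i := by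
        intro i
        rw [(pfwd_pbwd' c d p).resolve_right hp]
        rcases Fin.eq_self_or_eq_succAbove d i with rfl | ⟨j, rfl⟩
        · rw [vec_self, mul_one]
        · rw [vec_succAbove]
          field_simp
      have h2 : ∑ i, Complex.normSq (vec c p i) = Complex.normSq (vec c p d) *
          ∑ i, Complex.normSq (vec d (pfwd d (pbwd c p)) i) := by
        rw [Finset.mul_sum]
        exact Finset.sum_congr rfl fun i _ => by rw [← map_mul, ← h1 i]
      show prho c p = prho d (pfwd d (pbwd c p)) + _
      unfold prho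
      rw [h2, Real.log_mul (Complex.normSq_pos.2 hp).ne'
        (Pool.Agent.Results.MP_752b71_an.NoExtension.sum_normSq_pos (vec_self_ne d _)).ne']
      ring
    have hzero : leviForm (fun p : Fin k → ℂ => Real.log (Complex.normSq (vec c p d))) z v = 0 := by
      rw [leviForm_laplace t4]
      have hl : ∀ ζ : ℂ, HasDerivAt (fun ζ : ℂ => z + ζ • v) v ζ := by
        intro ζ
        simpa using ((hasDerivAt_id ζ).smul_const v).const_add z
      have hh : DifferentiableOn ℂ (fun ζ : ℂ => vec c (z + ζ • v) d) (ball 0 1) := fun ζ _ =>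
        (((contDiff_vec (n := ω) c d).differentiable omega_ne_zero _).comp ζ
          (hl ζ).differentiableAt).differentiableWithinAt
      exact laplace_log_normSq one_pos hh (by simpa using hne)
    show leviForm (prho c) z v = _
    rw [leviForm_congr heq, leviForm_add t3 t4, hzero, add_zero]

end Pool.Agent.KS6_82.PH
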