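import Pool.Agent.KS6_82.PH.Base

/-!
# Products of partially hyperbolic biholomorphisms with isometries
-/

set_option autoImplicit false

open Filter Metric Set Topology
open scoped Manifold ContDiff

namespace Pool.Agent.KS6_82.PH

open Pool.Agent.KS6_82.Kah

variable {E F : Type} [NormedAddCommGroup E] [NormedSpace ℂ E] [NormedAddCommGroup F]
  [NormedSpace ℂ F]
variable {M K : Type} [TopologicalSpace M] [ChartedSpace E M] [IsManifold 𝓘(ℂ, E) ω M]
  [TopologicalSpace K] [ChartedSpace F K] [IsManifold 𝓘(ℂ, F) ω K]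

/-! ### Sections of the tangent bundle of a product -/

theorem vf_prod_aux (I : ModelWithCorners ℂ (E × F) (E × F))
    (hI : I = 𝓘(ℂ, E).prod 𝓘(ℂ, F)) [IsManifold I 1 (M × K)] {V : M → E} {W : K → F}
    {U : Set M} {U' : Set K}
    (hV : ContinuousOn (vf V) U) (hW : ContinuousOn (vf W) U') :
    ContinuousOn (fun p : M × K => (⟨p, (V p.1, W p.2)⟩ : TangentBundle I (M × K)))
      (U ×ˢ U') := by
  subst hI
  have h1 := (contMDiff_equivTangentBundleProd_symm (n := 0) (I := 𝓘(ℂ, E)) (I' := 𝓘(ℂ, F))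
    (M := M) (M' := K)).continuous
  have h2 : ContinuousOn (fun p : M × K => (vf V p.1, vf W p.2)) (U ×ˢ U') :=
    (hV.comp continuousOn_fst fun p hp => hp.1).prodMk (hW.comp continuousOn_snd fun p hp => hp.2)
  exact h1.comp_continuousOn h2

theorem continuousOn_vf_prod {V : M → E} {W : K → F} {U : Set M} {U' : Set K}
    (hV : ContinuousOn (vf V) U) (hW : ContinuousOn (vf W) U') :
    ContinuousOn (vf (M := M × K) fun p => (V p.1, W p.2)) (U ×ˢ U') :=
  vf_prod_aux _ modelWithCornersSelf_prod hV hW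

theorem continuous_vf_zero : Continuous (vf (M := M) fun _ => (0 : E)) := by
  have := (Bundle.contMDiff_zeroSection (n := 0) ℂ (IB := 𝓘(ℂ, E)) (B := M) (F := E)
    (TangentSpace 𝓘(ℂ, E) : M → Type)).continuous
  exact this

theorem vf_fst_aux (I : ModelWithCorners ℂ (E × F) (E × F))
    (hI : I = 𝓘(ℂ, E).prod 𝓘(ℂ, F)) [IsManifold I 1 (M × K)] {V : M × K → E × F}
    {U : Set (M × K)} (y : K)
    (hV : MDifferentiableOn I I.tangent
      (fun p : M × K => (⟨p, V p⟩ : TangentBundle I (M × K))) U) :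
    MDifferentiableOn 𝓘(ℂ, E) 𝓘(ℂ, E).tangent (vf fun x : M => (V (x, y)).1)
      {x | (x, y) ∈ U} := by
  subst hI
  have h1 := (contMDiff_equivTangentBundleProd (n := 1) (I := 𝓘(ℂ, E)) (I' := 𝓘(ℂ, F))
    (M := M) (M' := K)).mdifferentiable one_ne_zero
  have h2 : MDifferentiableOn 𝓘(ℂ, E) (𝓘(ℂ, E).prod 𝓘(ℂ, F)) (fun x : M => (x, y))
      {x | (x, y) ∈ U} :=
    (mdifferentiable_id.prodMk mdifferentiable_const).mdifferentiableOn
  have h3 := hV.comp h2 (fun x hx => hx)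
  have h4 := h1.comp_mdifferentiableOn h3
  exact mdifferentiable_fst.comp_mdifferentiableOn h4

theorem mdifferentiableOn_vf_fst {V : M × K → E × F} {U : Set (M × K)} (y : K)
    (hV : MDifferentiableOn 𝓘(ℂ, E × F) 𝓘(ℂ, E × F).tangent (vf V) U) :
    MDifferentiableOn 𝓘(ℂ, E) 𝓘(ℂ, E).tangent (vf fun x : M => (V (x, y)).1)
      {x | (x, y) ∈ U} :=
  vf_fst_aux _ modelWithCornersSelf_prod y hV

/-! ### Derivatives -/

omit [IsManifold 𝓘(ℂ, E) ω M] [IsManifold 𝓘(ℂ, F) ω K] in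
theorem mfderiv_prodMap_aux (I : ModelWithCorners ℂ (E × F) (E × F))
    (hI : I = 𝓘(ℂ, E).prod 𝓘(ℂ, F)) {f : M → M} {h : K → K} (p : M × K)
    (hf : MDifferentiableAt 𝓘(ℂ, E) 𝓘(ℂ, E) f p.1)
    (hh : MDifferentiableAt 𝓘(ℂ, F) 𝓘(ℂ, F) h p.2) (v : E × F) :
    (mfderiv I I (Prod.map f h) p : E × F →L[ℂ] E × F) v =
      ((mfderiv 𝓘(ℂ, E) 𝓘(ℂ, E) f p.1 : E →L[ℂ] E) v.1,
        (mfderiv 𝓘(ℂ, F) 𝓘(ℂ, F) h p.2 : F →L[ℂ] F) v.2) := by
  subst hI
  have := mfderiv_prodMap hf hh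
  rw [this]
  rfl

omit [IsManifold 𝓘(ℂ, E) ω M] [IsManifold 𝓘(ℂ, F) ω K] in
theorem D_prod {f : M → M} {h : K → K} (p : M × K)
    (hf : MDifferentiableAt 𝓘(ℂ, E) 𝓘(ℂ, E) f p.1)
    (hh : MDifferentiableAt 𝓘(ℂ, F) 𝓘(ℂ, F) h p.2) (v : E × F) :
    D (E × F) (Prod.map f h) p v = (D E f p.1 v.1, D F h p.2 v.2) :=
  mfderiv_prodMap_aux _ modelWithCornersSelf_prod p hf hh v

omit [IsManifold 𝓘(ℂ, E) ω M] [IsManifold 𝓘(ℂ, F) ω K] in
theorem contMDiff_prodMap' {n : WithTop ℕ∞} {f : M → M} {h : K → K}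
    (hf : ContMDiff 𝓘(ℂ, E) 𝓘(ℂ, E) n f) (hh : ContMDiff 𝓘(ℂ, F) 𝓘(ℂ, F) n h) :
    ContMDiff 𝓘(ℂ, E × F) 𝓘(ℂ, E × F) n (Prod.map f h : M × K → M × K) := by
  rw [modelWithCornersSelf_prod]
  exact hf.prodMap hh

/-- The product of two biholomorphisms. -/
noncomputable def prodDiffeo (f : Diffeomorph 𝓘(ℂ, E) 𝓘(ℂ, E) M M ω)
    (h : Diffeomorph 𝓘(ℂ, F) 𝓘(ℂ, F) K K ω) :
    Diffeomorph 𝓘(ℂ, E × F) 𝓘(ℂ, E × F) (M × K) (M × K) ω where
  toEquiv := Equiv.prodCongr f.toEquiv h.toEquiv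
  contMDiff_toFun := contMDiff_prodMap' f.contMDiff_toFun h.contMDiff_toFun
  contMDiff_invFun := contMDiff_prodMap' f.contMDiff_invFun h.contMDiff_invFun

omit [IsManifold 𝓘(ℂ, E) ω M] [IsManifold 𝓘(ℂ, F) ω K] in
theorem prodDiffeo_coe (f : Diffeomorph 𝓘(ℂ, E) 𝓘(ℂ, E) M M ω)
    (h : Diffeomorph 𝓘(ℂ, F) 𝓘(ℂ, F) K K ω) : ⇑(prodDiffeo f h) = Prod.map f h := rfl

/-! ### Subbundles -/

theorem subbundle_prod {A : M → Submodule ℂ E} {B : K → Submodule ℂ F}
    (hA : IsContinuousSubbundle A) (hB : IsContinuousSubbundle B) :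
    IsContinuousSubbundle (fun p : M × K => (A p.1).prod (B p.2)) := by
  rintro ⟨x₀, y₀⟩
  obtain ⟨U, hU, hx, k, V, hV, hV'⟩ := hA x₀
  obtain ⟨U', hU', hy, k', W, hW, hW'⟩ := hB y₀
  let S : Fin k ⊕ Fin k' → M × K → E × F :=
    Sum.elim (fun i p => (V i p.1, 0)) (fun j p => (0, W j p.2))
  refine ⟨U ×ˢ U', hU.prod hU', ⟨hx, hy⟩, k + k', fun i => S (finSumFinEquiv.symm i), ?_, ?_⟩
  · have key : ∀ s, ContinuousOn (vf (S s)) (U ×ˢ U') := by
      rintro (j | j)
      · have h0 : ContinuousOn (vf (M := K) fun _ => (0 : F)) U' :=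
          continuous_vf_zero.continuousOn
        exact continuousOn_vf_prod (hV j) h0
      · have h0 : ContinuousOn (vf (M := M) fun _ => (0 : E)) U :=
          continuous_vf_zero.continuousOn
        exact continuousOn_vf_prod h0 (hW j)
    exact fun i => key _
  · rintro ⟨x, y⟩ ⟨hxU, hyU⟩
    obtain ⟨l1, s1⟩ := hV' x hxU
    obtain ⟨l2, s2⟩ := hW' y hyU
    have e : (fun i => S i (x, y)) = Sum.elim (LinearMap.inl ℂ E F ∘ fun i => V i x)
        (LinearMap.inr ℂ E F ∘ fun j => W j y) := by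
      funext i
      rcases i with i | j <;> rfl
    constructor
    · have h := linearIndependent_inl_union_inr' l1 l2
      rw [← e] at h
      exact h.comp _ finSumFinEquiv.symm.injective
    · have hr : range (fun i => S (finSumFinEquiv.symm i) (x, y)) =
          LinearMap.inl ℂ E F '' (range fun i => V i x) ∪
            LinearMap.inr ℂ E F '' (range fun j => W j y) := by
        rw [show (fun i => S (finSumFinEquiv.symm i) (x, y)) =
          (fun i => S i (x, y)) ∘ finSumFinEquiv.symm from rfl,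
          finSumFinEquiv.symm.surjective.range_comp, e, Sum.elim_range, range_comp, range_comp]
      show (A x).prod (B y) = _
      rw [hr, Submodule.span_union, Submodule.span_image, Submodule.span_image, ← s1, ← s2,
        Submodule.map_inl, Submodule.map_inr, Submodule.prod_sup_prod, sup_bot_eq, bot_sup_eq]

theorem subbundle_bot : IsContinuousSubbundle (fun _ : M => (⊥ : Submodule ℂ E)) := by
  intro x₀
  refine ⟨univ, isOpen_univ, trivial, 0, fun i => i.elim0, fun i => i.elim0, fun x _ => ?_⟩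
  exact ⟨linearIndependent_empty_type, by simp⟩

theorem subbundle_top [FiniteDimensional ℂ E] :
    IsContinuousSubbundle (fun _ : M => (⊤ : Submodule ℂ E)) := by
  intro x₀
  let e := trivializationAt E (TangentSpace 𝓘(ℂ, E) : M → Type) x₀
  let b := Module.finBasis ℂ E
  let W : Fin (Module.finrank ℂ E) → M → E := fun i x => e.symm x (b i)
  refine ⟨e.baseSet, e.open_baseSet, FiberBundle.mem_baseSet_trivializationAt' x₀, _, W, ?_, ?_⟩
  · intro i
    have h1 := e.continuousOn_symm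
    exact h1.comp (continuous_id.prodMk continuous_const).continuousOn fun x hx => ⟨hx, trivial⟩
  · intro x hx
    obtain ⟨L, hL⟩ : ∃ L : E ≃ₗ[ℂ] E, (fun i => W i x) = L ∘ b :=
      ⟨(e.continuousLinearEquivAt ℂ x hx).symm.toLinearEquiv, rfl⟩
    constructor
    · have := b.linearIndependent.map' L.toLinearMap L.ker
      rw [hL]
      exact this
    · show (⊤ : Submodule ℂ E) = Submodule.span ℂ (range fun i => W i x)
      rw [hL, range_comp]
      have h2 := Submodule.span_image (R := ℂ) (s := range b) L.toLinearMap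
      rw [b.span_eq, Submodule.map_top, LinearEquiv.range] at h2
      exact h2.symm

/-- If `A × TK` is holomorphic, then so is `A`. -/
theorem holomorphic_descent [Nonempty K] {A : M → Submodule ℂ E} {B : K → Submodule ℂ F}
    (h : IsHolomorphicSubbundle (fun p : M × K => (A p.1).prod (B p.2))) :
    IsHolomorphicSubbundle A := by
  intro x₀
  obtain ⟨y₀⟩ := ‹Nonempty K›
  obtain ⟨U, hU, hx, k, V, hV, hspan⟩ := h (x₀, y₀)
  refine ⟨{x | (x, y₀) ∈ U}, hU.preimage (Continuous.prodMk_left y₀), hx, k,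
    fun i x => (V i (x, y₀)).1, fun i => mdifferentiableOn_vf_fst y₀ (hV i), ?_⟩
  intro x hxU
  have h1 : (A x).prod (B y₀) = Submodule.span ℂ (range fun i => V i (x, y₀)) :=
    hspan (x, y₀) hxU
  have h2 := congrArg (Submodule.map (LinearMap.fst ℂ E F)) h1
  rw [Submodule.map_span, ← range_comp] at h2
  have h3 : Submodule.map (LinearMap.fst ℂ E F) ((A x).prod (B y₀)) = A x := by
    rw [Submodule.prod_map_fst]
  rw [h3] at h2
  exact h2

/-! ### Kähler metrics -/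

omit [IsManifold 𝓘(ℂ, E) ω M] in
theorem IsKahlerMetric.zero {g : M → E → ℝ} (hg : IsKahlerMetric g) (x : M) : g x 0 = 0 := by
  obtain ⟨U, _, hx, φ, hφ⟩ := hg.2 x
  rw [(hφ x hx).2, leviForm_zero]

omit [IsManifold 𝓘(ℂ, E) ω M] in
theorem IsKahlerMetric.nonneg {g : M → E → ℝ} (hg : IsKahlerMetric g) (x : M) (v : E) :
    0 ≤ g x v := by
  by_cases h : v = 0
  · rw [h, hg.zero]
  · exact (hg.1 x v h).le

omit [IsManifold 𝓘(ℂ, E) ω M] in
theorem IsKahlerMetric.smul {g : M → E → ℝ} (hg : IsKahlerMetric g) (x : M) (c : ℝ) (v : E) :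
    g x ((c : ℂ) • v) = c ^ 2 * g x v := by
  obtain ⟨U, _, hx, φ, hφ⟩ := hg.2 x
  rw [(hφ x hx).2, (hφ x hx).2, leviForm_smul (hφ x hx).1]

/-- The product metric. -/
def prodMetric (g : M → E → ℝ) (g' : K → F → ℝ) (p : M × K) (v : E × F) : ℝ :=
  g p.1 v.1 + g' p.2 v.2

theorem isKahlerMetric_prod {g : M → E → ℝ} {g' : K → F → ℝ} (hg : IsKahlerMetric g)
    (hg' : IsKahlerMetric g') : IsKahlerMetric (prodMetric g g') := by
  constructor
  · rintro ⟨x, y⟩ ⟨v, w⟩ h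
    show 0 < g x v + g' y w
    by_cases hv : v = 0
    · have hw : w ≠ 0 := by
        rintro rfl
        exact h (by rw [hv]; rfl)
      exact add_pos_of_nonneg_of_pos (hg.nonneg x v) (hg'.1 y w hw)
    · exact add_pos_of_pos_of_nonneg (hg.1 x v hv) (hg'.nonneg y w)
  · rintro ⟨x₀, y₀⟩
    obtain ⟨U, hU, hx, φ, hφ⟩ := hg.2 x₀
    obtain ⟨U', hU', hy, ψ, hψ⟩ := hg'.2 y₀
    refine ⟨U ×ˢ U', hU.prod hU', ⟨hx, hy⟩, fun p => φ p.1 + ψ p.2, ?_⟩
    rintro ⟨x, y⟩ ⟨hxU, hyU⟩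
    obtain ⟨a1, b1⟩ := hφ x hxU
    obtain ⟨a2, b2⟩ := hψ y hyU
    have e : (fun p : M × K => φ p.1 + ψ p.2) ∘ (chartAt (E × F) (x, y)).symm =
        fun w : E × F => (φ ∘ (chartAt E x).symm) w.1 + (ψ ∘ (chartAt F y).symm) w.2 := rfl
    have c1 : ContDiffAt ℝ ∞ ((φ ∘ (chartAt E x).symm) ∘ (Prod.fst : E × F → E))
        (chartAt E x x, chartAt F y y) := ContDiffAt.comp _ a1 contDiffAt_fst
    have c2 : ContDiffAt ℝ ∞ ((ψ ∘ (chartAt F y).symm) ∘ (Prod.snd : E × F → F))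
        (chartAt E x x, chartAt F y y) := ContDiffAt.comp _ a2 contDiffAt_snd
    constructor
    · rw [e]
      exact c1.add c2
    · rintro ⟨v, w⟩
      rw [e]
      show g x v + g' y w = _
      rw [b1, b2]
      exact (leviForm_prod (z := (chartAt E x x, chartAt F y y)) a1 a2 (v, w)).symm

end Pool.Agent.KS6_82.PH
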